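import Pool.Agent.helper21.BEY.SpecB

/-!
# Project BEY (MP_4467b5_nt): row TAS

Port of `Pool/Agent/helper26/DH/TAY.lean` (helper26).
-/

set_option autoImplicit false

open Complex MeasureTheory

namespace Pool.Agent.BEY

open Pool.Agent.helper84.DM Pool.Agent.helper78.ED Pool.Agent.DH Pool.Agent.LDH

/-- The real identity. -/
theorem TAS_real {M n : ℝ} (hM : 0 < M) (hn : 0 < n) (σ b : ℝ) :
    M ^ b * n ^ (-b) = (n / M) ^ (-σ) * Real.exp (-((b - σ) * Real.log (n / M))) := by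
  have hq : 0 < n / M := div_pos hn hM
  have h1 : M ^ b * n ^ (-b) = (n / M) ^ (-b) := by
    rw [Real.div_rpow hn.le hM.le, Real.rpow_neg hM.le, div_inv_eq_mul, mul_comm]
  have h2 : Real.exp (-((b - σ) * Real.log (n / M))) = (n / M) ^ (-(b - σ)) := by
    rw [Real.rpow_def_of_pos hq]
    congr 1
    ring
  rw [h1, h2, ← Real.rpow_add hq]
  congr 1
  ring

theorem TAS_term {M : ℝ} {n : ℕ} (hM : 0 < M) (hn : 0 < n) (σ : ℝ) (ρ : ℂ) :
    (((M ^ ρ.re : ℝ)) : ℂ) * (n : ℂ) ^ (-ρ) =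
      ((((n : ℝ) / M) ^ (-σ) * Real.exp (-((ρ.re - σ) * Real.log ((n : ℝ) / M))) : ℝ) : ℂ) *
        (n : ℂ) ^ (-((ρ.im : ℂ) * I)) := by
  have hn' : (0 : ℝ) < n := by exact_mod_cast hn
  have hn0 : (n : ℂ) ≠ 0 := by exact_mod_cast hn.ne'
  rw [← TAS_real hM hn' σ ρ.re]
  have h1 : -ρ = ((-ρ.re : ℝ) : ℂ) + (-((ρ.im : ℂ) * I)) := by
    conv_lhs => rw [← Complex.re_add_im ρ]
    push_cast
    ring
  have h2 : (n : ℂ) ^ (((-ρ.re : ℝ) : ℂ)) = (((n : ℝ) ^ (-ρ.re) : ℝ) : ℂ) := by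
    rw [Complex.ofReal_cpow hn'.le]
    norm_num
  conv_lhs => rw [h1, Complex.cpow_add _ _ hn0, h2]
  push_cast
  ring

/-- Taylor. -/
theorem TAS_taylor {y : ℝ} (h0 : 0 ≤ y) (h1 : y ≤ 1 / 2) {J : ℕ} (hJ : 0 < J) :
    |Real.exp (-y) - ∑ j ∈ Finset.range J, (-y) ^ j / (j.factorial : ℝ)| ≤ 2 * (1 / 2) ^ J := by
  have h2 : |(-y)| ≤ 1 := by rw [abs_neg, abs_of_nonneg h0]; linarith
  have h3 := Real.exp_bound h2 hJ
  refine h3.trans ?_
  rw [abs_neg, abs_of_nonneg h0]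
  have h4 : ((J.succ : ℝ) / ((J.factorial : ℝ) * J)) ≤ 2 := by
    have hJ' : (1 : ℝ) ≤ J := by exact_mod_cast hJ
    have hf : (1 : ℝ) ≤ J.factorial := by exact_mod_cast Nat.factorial_pos J
    rw [div_le_iff₀ (by positivity)]
    push_cast
    nlinarith
  have h5 : y ^ J ≤ (1 / 2) ^ J := pow_le_pow_left₀ h0 h1 J
  have h6 : (0 : ℝ) ≤ (1 / 2) ^ J := by positivity
  calc y ^ J * ((J.succ : ℝ) / ((J.factorial : ℝ) * J)) ≤ (1 / 2) ^ J * 2 :=
        mul_le_mul h5 h4 (by positivity) h6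
    _ = 2 * (1 / 2) ^ J := by ring

theorem TAS_geom {x : ℝ} (h0 : 0 ≤ x) (h1 : x ≤ 1 / 2) (J : ℕ) :
    ∑ j ∈ Finset.range J, x ^ j / (j.factorial : ℝ) ≤ 2 := by
  have h2 : ∀ j ∈ Finset.range J, x ^ j / (j.factorial : ℝ) ≤ (1 / 2) ^ j := by
    intro j _
    have hf : (1 : ℝ) ≤ j.factorial := by exact_mod_cast Nat.factorial_pos j
    have h3 : x ^ j ≤ (1 / 2) ^ j := pow_le_pow_left₀ h0 h1 j
    have h4 : 0 ≤ x ^ j := pow_nonneg h0 j
    exact (div_le_self h4 hf).trans h3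
  refine (Finset.sum_le_sum h2).trans ?_
  have h5 := sum_geometric_two_le J
  simpa using h5

theorem TAS_pow {T : ℝ} (hT : 1 < T) {J : ℕ} (hJ : 16 * Real.log T ≤ J) :
    (1 / 2 : ℝ) ^ J ≤ 1 / T ^ (11 : ℕ) := by
  have hlog : 0 < Real.log T := Real.log_pos hT
  have hT0 : 0 < T := by linarith
  have h1 : (1 / 2 : ℝ) ^ J = Real.exp (-(J * Real.log 2)) := by
    rw [← Real.rpow_natCast, Real.rpow_def_of_pos (by norm_num)]
    congr 1
    rw [show (1 / 2 : ℝ) = 2⁻¹ by norm_num, Real.log_inv]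
    ring
  have h2 : 1 / T ^ (11 : ℕ) = Real.exp (-(11 * Real.log T)) := by
    rw [Real.exp_neg, one_div]
    congr 1
    rw [mul_comm, Real.exp_mul, Real.exp_log hT0]
    norm_cast
  rw [h1, h2, Real.exp_le_exp]
  have h3 := Real.log_two_gt_d9
  nlinarith

theorem TAS (hPHF : PHF_stmt) : TAS_stmt := by
  obtain ⟨-, -, -, -, hpsi, hpsi1, hpsi2, -, -, -⟩ := hPHF
  intro κ hκ0 hκ1
  refine ⟨7 ^ (1 / κ) + 2, ?_⟩
  intro T hT σ M ρ hσ hM1 hMT hρ1 hρ2 hD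
  by_contra hcon
  push Not at hcon
  have h7 : (0 : ℝ) < 7 ^ (1 / κ) := by positivity
  have hT1 : 1 < T := by linarith
  have hT0 : 0 < T := by linarith
  have hlog : 0 < Real.log T := Real.log_pos hT1
  have hM0 : 0 < M := by linarith
  set J := ⌊16 * Real.log T⌋₊ + 1 with hJdef
  have hJ : 16 * Real.log T ≤ J := by
    have := Nat.lt_floor_add_one (16 * Real.log T)
    rw [hJdef]
    push_cast
    exact this.le
  set x := ρ.re - σ with hx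
  have hx0 : 0 ≤ x := by rw [hx]; linarith
  have hx1 : x ≤ 1 / 2 := by rw [hx]; linarith
  set B := M ^ σ * T ^ (-(2 * κ)) with hB
  have hMσ : 1 ≤ M ^ σ := Real.one_le_rpow hM1 (by linarith)
  set γ := ρ.im with hγ
  set N := ⌊2 * M⌋₊ with hN
  have hNM : (N : ℝ) ≤ 2 * M := Nat.floor_le (by linarith)
  -- the error terms
  let u : ℕ → ℝ := fun n => Real.log ((n : ℝ) / M)
  let E : ℕ → ℝ := fun n => Real.exp (-(x * u n)) -
    ∑ j ∈ Finset.range J, (-(x * u n)) ^ j / (j.factorial : ℝ)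
  have hmem : ∀ n ∈ Finset.Icc 1 N, psi ((n : ℝ) / M) ≠ 0 → 0 ≤ u n ∧ u n ≤ 1 ∧
      0 ≤ ((n : ℝ) / M) ^ (-σ) ∧ ((n : ℝ) / M) ^ (-σ) ≤ 1 := by
    intro n hn hne
    have h3 : 1 ≤ (n : ℝ) / M := by
      by_contra h
      exact hne (hpsi1 _ (not_le.1 h).le)
    have h4 : (n : ℝ) / M ≤ 2 := by
      by_contra h
      exact hne (hpsi2 _ (not_le.1 h).le)
    refine ⟨Real.log_nonneg h3, ?_, Real.rpow_nonneg (by positivity) _, ?_⟩
    · have := Real.log_le_log (by linarith) h4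
      have h5 := Real.log_two_lt_d9
      show Real.log ((n : ℝ) / M) ≤ 1
      linarith
    · exact Real.rpow_le_one_of_one_le_of_nonpos h3 (by linarith)
  have hE : ∀ n ∈ Finset.Icc 1 N, psi ((n : ℝ) / M) ≠ 0 → |E n| ≤ 2 * (1 / 2) ^ J := by
    intro n hn hne
    obtain ⟨h1, h2, -, -⟩ := hmem n hn hne
    refine TAS_taylor (mul_nonneg hx0 h1) ?_ (by omega)
    calc x * u n ≤ x * 1 := mul_le_mul_of_nonneg_left h2 hx0
      _ ≤ 1 / 2 := by linarith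
  -- the main identity
  have main : (((M ^ ρ.re : ℝ)) : ℂ) * Ps M ρ =
      ∑ j ∈ Finset.range J, ((((-x) ^ j / (j.factorial : ℝ) : ℝ)) : ℂ) *
        Sz (wj σ j) M γ +
      ∑ n ∈ Finset.Icc 1 N, ((psi ((n : ℝ) / M) * (((n : ℝ) / M) ^ (-σ) * E n) : ℝ) : ℂ) *
        (n : ℂ) ^ (-((γ : ℂ) * I)) := by
    have h1 : ∀ n ∈ Finset.Icc 1 N, (((M ^ ρ.re : ℝ)) : ℂ) *
          (((psi ((n : ℝ) / M) : ℝ) : ℂ) * (n : ℂ) ^ (-ρ)) =
        (∑ j ∈ Finset.range J, ((((-x) ^ j / (j.factorial : ℝ) : ℝ)) : ℂ) *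
          (((wj σ j ((n : ℝ) / M) : ℝ) : ℂ) * (n : ℂ) ^ (-((γ : ℂ) * I)))) +
        ((psi ((n : ℝ) / M) * (((n : ℝ) / M) ^ (-σ) * E n) : ℝ) : ℂ) *
          (n : ℂ) ^ (-((γ : ℂ) * I)) := by
      intro n hn
      have hn0 : 0 < n := (Finset.mem_Icc.1 hn).1
      have e1 : (((M ^ ρ.re : ℝ)) : ℂ) * (((psi ((n : ℝ) / M) : ℝ) : ℂ) * (n : ℂ) ^ (-ρ)) =
          ((psi ((n : ℝ) / M) : ℝ) : ℂ) * ((((M ^ ρ.re : ℝ)) : ℂ) * (n : ℂ) ^ (-ρ)) := by ring
      rw [e1, TAS_term hM0 hn0 σ ρ]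
      have e2 : Real.exp (-((ρ.re - σ) * Real.log ((n : ℝ) / M))) =
          (∑ j ∈ Finset.range J, (-x) ^ j / (j.factorial : ℝ) * u n ^ j) + E n := by
        have e3 : ∑ j ∈ Finset.range J, (-x) ^ j / (j.factorial : ℝ) * u n ^ j =
            ∑ j ∈ Finset.range J, (-(x * u n)) ^ j / (j.factorial : ℝ) := by
          refine Finset.sum_congr rfl fun j _ => ?_
          rw [← neg_mul, mul_pow]
          ring
        rw [e3]
        show Real.exp (-(x * u n)) = _ + (Real.exp (-(x * u n)) - _)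
        ring
      rw [e2]
      unfold wj
      push_cast
      simp only [mul_add, add_mul, Finset.mul_sum, Finset.sum_mul]
      congr 1
      · refine Finset.sum_congr rfl fun j _ => ?_
        show _ = _
        simp only [u]
        ring
      · ring
    unfold Ps Sz
    rw [Finset.mul_sum, Finset.sum_congr rfl h1, Finset.sum_add_distrib]
    congr 1
    rw [Finset.sum_comm]
    refine Finset.sum_congr rfl fun j _ => ?_
    rw [Finset.mul_sum]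
  -- bounds
  have hγn : ∀ n : ℕ, 0 < n → ‖(n : ℂ) ^ (-((γ : ℂ) * I))‖ = 1 := by
    intro n hn
    rw [Complex.norm_natCast_cpow_of_pos hn]
    simp
  have b1 : ‖∑ n ∈ Finset.Icc 1 N, ((psi ((n : ℝ) / M) * (((n : ℝ) / M) ^ (-σ) * E n) : ℝ) : ℂ) *
        (n : ℂ) ^ (-((γ : ℂ) * I))‖ ≤ N * (2 * (1 / 2) ^ J) := by
    refine (norm_sum_le _ _).trans ?_
    have h2 : ∀ n ∈ Finset.Icc 1 N, ‖((psi ((n : ℝ) / M) * (((n : ℝ) / M) ^ (-σ) * E n) : ℝ) : ℂ) *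
        (n : ℂ) ^ (-((γ : ℂ) * I))‖ ≤ 2 * (1 / 2) ^ J := by
      intro n hn
      have hn0 : 0 < n := (Finset.mem_Icc.1 hn).1
      rw [norm_mul, hγn n hn0, mul_one, Complex.norm_real]
      by_cases hne : psi ((n : ℝ) / M) = 0
      · rw [hne, zero_mul, norm_zero]
        positivity
      obtain ⟨-, -, h3, h4⟩ := hmem n hn hne
      rw [norm_mul, norm_mul, Real.norm_of_nonneg h3, Real.norm_eq_abs, Real.norm_eq_abs,
        abs_of_nonneg (hpsi _).1]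
      calc psi ((n : ℝ) / M) * (((n : ℝ) / M) ^ (-σ) * |E n|) ≤ 1 * (1 * |E n|) :=
            mul_le_mul (hpsi _).2 (mul_le_mul_of_nonneg_right h4 (abs_nonneg _))
              (mul_nonneg h3 (abs_nonneg _)) zero_le_one
        _ ≤ _ := by rw [one_mul, one_mul]; exact hE n hn hne
    refine (Finset.sum_le_sum h2).trans (le_of_eq ?_)
    rw [Finset.sum_const, Nat.card_Icc, nsmul_eq_mul, Nat.add_sub_cancel]
  have hBpos : 0 < B := by positivity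
  have b2 : ‖∑ j ∈ Finset.range J, ((((-x) ^ j / (j.factorial : ℝ) : ℝ)) : ℂ) *
        Sz (wj σ j) M γ‖ ≤ 2 * B := by
    refine (norm_sum_le _ _).trans ?_
    have h2 : ∀ j ∈ Finset.range J, ‖((((-x) ^ j / (j.factorial : ℝ) : ℝ)) : ℂ) *
        Sz (wj σ j) M γ‖ ≤ x ^ j / (j.factorial : ℝ) * B := by
      intro j hj
      rw [norm_mul, Complex.norm_real, norm_div, norm_pow, norm_neg, Real.norm_of_nonneg hx0,
        Real.norm_of_nonneg (Nat.cast_nonneg _)]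
      exact mul_le_mul_of_nonneg_left (hcon j hj).le (by positivity)
    refine (Finset.sum_le_sum h2).trans ?_
    rw [← Finset.sum_mul]
    exact mul_le_mul_of_nonneg_right (TAS_geom hx0 hx1 J) hBpos.le
  have b3 : M ^ σ * T ^ (-κ) ≤ ‖(((M ^ ρ.re : ℝ)) : ℂ) * Ps M ρ‖ := by
    rw [norm_mul, Complex.norm_real, Real.norm_of_nonneg (by positivity)]
    have h2 : M ^ σ ≤ M ^ ρ.re := Real.rpow_le_rpow_of_exponent_le hM1 hρ1
    exact mul_le_mul h2 hD (by positivity) (by positivity)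
  rw [main] at b3
  have b4 := norm_add_le (∑ j ∈ Finset.range J, ((((-x) ^ j / (j.factorial : ℝ) : ℝ)) : ℂ) *
        Sz (wj σ j) M γ)
      (∑ n ∈ Finset.Icc 1 N, ((psi ((n : ℝ) / M) * (((n : ℝ) / M) ^ (-σ) * E n) : ℝ) : ℂ) *
        (n : ℂ) ^ (-((γ : ℂ) * I)))
  have b5 : M ^ σ * T ^ (-κ) ≤ 2 * B + N * (2 * (1 / 2) ^ J) := by linarith
  have b7 := TAS_pow hT1 hJ
  have b8 : (N : ℝ) * (2 * (1 / 2) ^ J) ≤ M ^ σ * (4 / T ^ (9 : ℕ)) := by
    calc (N : ℝ) * (2 * (1 / 2) ^ J) ≤ (2 * T ^ 2) * (2 * (1 / T ^ (11 : ℕ))) := by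
          have : (N : ℝ) ≤ 2 * T ^ 2 := by linarith
          gcongr
      _ = 1 * (4 / T ^ (9 : ℕ)) := by
          field_simp
          ring
      _ ≤ M ^ σ * (4 / T ^ (9 : ℕ)) := mul_le_mul_of_nonneg_right hMσ (by positivity)
  have b9 : M ^ σ * T ^ (-κ) ≤ M ^ σ * (2 * T ^ (-(2 * κ)) + 4 / T ^ (9 : ℕ)) := by
    have e : M ^ σ * (2 * T ^ (-(2 * κ)) + 4 / T ^ (9 : ℕ)) = 2 * B + M ^ σ * (4 / T ^ (9 : ℕ)) := by
      rw [hB]
      ring
    rw [e]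
    linarith
  have b10 : T ^ (-κ) ≤ 2 * T ^ (-(2 * κ)) + 4 / T ^ (9 : ℕ) :=
    le_of_mul_le_mul_left b9 (by linarith)
  have b11 : T ^ κ ≤ 2 + 4 * (T ^ (2 * κ) / T ^ (9 : ℕ)) := by
    have hp : 0 < T ^ (2 * κ) := by positivity
    have h1 := mul_le_mul_of_nonneg_right b10 hp.le
    have e1 : T ^ (-κ) * T ^ (2 * κ) = T ^ κ := by
      rw [← Real.rpow_add hT0]
      congr 1
      ring
    have e2 : T ^ (-(2 * κ)) * T ^ (2 * κ) = 1 := by
      rw [← Real.rpow_add hT0, neg_add_cancel, Real.rpow_zero]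
    have e3 : (2 * T ^ (-(2 * κ)) + 4 / T ^ (9 : ℕ)) * T ^ (2 * κ) =
        2 * (T ^ (-(2 * κ)) * T ^ (2 * κ)) + 4 * (T ^ (2 * κ) / T ^ (9 : ℕ)) := by
      ring
    rw [e1, e3, e2] at h1
    linarith
  have b12 : T ^ (2 * κ) / T ^ (9 : ℕ) ≤ 1 := by
    rw [div_le_one (by positivity), ← Real.rpow_natCast]
    refine Real.rpow_le_rpow_of_exponent_le hT1.le ?_
    push_cast
    linarith
  have b13 : 7 ≤ T ^ κ := by
    calc (7 : ℝ) = (7 ^ (1 / κ)) ^ κ := by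
          rw [← Real.rpow_mul (by norm_num), one_div_mul_cancel hκ0.ne', Real.rpow_one]
      _ ≤ T ^ κ := Real.rpow_le_rpow h7.le (by linarith) hκ0.le
  linarith

end Pool.Agent.BEY
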