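import Pool.Agent.helper5.BEY.SpecA

set_option autoImplicit false

/-!
# Project BEY, row OSA (MP_4467b5_nt): no stationary point
-/

open Complex MeasureTheory

namespace Pool.Agent.BEY

/-- the denominator of the phase -/
noncomputable def OSA_N (j y : ℝ) : ℝ := (y * (y + 1)) * ((y + j) * (y + j + 1))

/-- its derivative -/
noncomputable def OSA_N' (j y : ℝ) : ℝ :=
  (2 * y + 1) * ((y + j) * (y + j + 1)) + (y * (y + 1)) * (2 * (y + j) + 1)

/-- the numerator of the phase -/
noncomputable def OSA_D (t t' j y : ℝ) : ℝ := t * (y * (y + 1)) - t' * ((y + j) * (y + j + 1))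

/-- its derivative -/
noncomputable def OSA_D' (t t' j y : ℝ) : ℝ := t * (2 * y + 1) - t' * (2 * (y + j) + 1)

/-- `N / D` -/
noncomputable def OSA_R (t t' j y : ℝ) : ℝ := OSA_N j y / OSA_D t t' j y

/-- its derivative -/
noncomputable def OSA_R' (t t' j y : ℝ) : ℝ :=
  (OSA_N' j y * OSA_D t t' j y - OSA_N j y * OSA_D' t t' j y) / OSA_D t t' j y ^ 2

/-- the phase -/
noncomputable def OSA_th (t t' j y : ℝ) : ℝ := -(t * el (y + j)) + t' * el y

theorem OSA_sq (y : ℝ) : HasDerivAt (fun y : ℝ => y * (y + 1)) (2 * y + 1) y := by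
  have h := (hasDerivAt_id y).mul ((hasDerivAt_id y).add_const (1 : ℝ))
  refine h.congr_deriv ?_
  simp only [id]
  ring

theorem OSA_sqj (j y : ℝ) :
    HasDerivAt (fun y : ℝ => (y + j) * (y + j + 1)) (2 * (y + j) + 1) y := by
  have h := ((hasDerivAt_id y).add_const j).mul (((hasDerivAt_id y).add_const j).add_const (1 : ℝ))
  refine h.congr_deriv ?_
  simp only [id]
  ring

theorem OSA_dN (j y : ℝ) : HasDerivAt (OSA_N j) (OSA_N' j y) y := by
  have h := (OSA_sq y).mul (OSA_sqj j y)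
  exact h

theorem OSA_dD (t t' j y : ℝ) : HasDerivAt (OSA_D t t' j) (OSA_D' t t' j y) y := by
  have h := ((OSA_sq y).const_mul t).sub ((OSA_sqj j y).const_mul t')
  exact h

theorem OSA_dR (t t' j y : ℝ) (h : OSA_D t t' j y ≠ 0) :
    HasDerivAt (OSA_R t t' j) (OSA_R' t t' j y) y :=
  (OSA_dN j y).div (OSA_dD t t' j y) h

theorem OSA_el (y : ℝ) (hy : 0 < y) : HasDerivAt el (-(1 / (y * (y + 1)))) y := by
  have h1 : HasDerivAt (fun y : ℝ => 1 + 1 / y) (-(1 / y ^ 2)) y := by
    have h := (hasDerivAt_inv hy.ne').const_add 1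
    refine (h.congr_deriv ?_).congr_of_eventuallyEq ?_
    · rw [one_div]
    · exact Filter.Eventually.of_forall fun x => by simp only [one_div]
  have h2 : (1 + 1 / y) ≠ 0 := by positivity
  have h3 := h1.log h2
  refine h3.congr_deriv ?_
  field_simp

theorem OSA_dth (t t' j y : ℝ) (hj : 0 ≤ j) (hy : 0 < y) :
    HasDerivAt (OSA_th t t' j) (OSA_D t t' j y / OSA_N j y) y := by
  have h1 : HasDerivAt (fun y : ℝ => el (y + j)) (-(1 / ((y + j) * (y + j + 1)))) y :=
    (OSA_el (y + j) (by linarith)).comp_add_const y j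
  have h2 := ((h1.const_mul t).neg).add ((OSA_el y hy).const_mul t')
  refine h2.congr_deriv ?_
  unfold OSA_D OSA_N
  have a1 : y ≠ 0 := hy.ne'
  have a2 : y + 1 ≠ 0 := by linarith
  have a3 : y + j ≠ 0 := by linarith
  have a4 : y + j + 1 ≠ 0 := by linarith
  field_simp
  ring

theorem OSA_ph (t t' y j : ℝ) : E t (y + j) * (starRingEnd ℂ) (E t' y) =
    Complex.exp (((OSA_th t t' j y : ℝ) : ℂ) * I) := by
  unfold E OSA_th
  rw [← Complex.exp_conj, ← Complex.exp_add]
  congr 1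
  rw [map_mul, Complex.conj_ofReal, Complex.conj_I]
  push_cast
  ring

theorem OSA_c1 {Q : ℝ} {A : ℝ → ℝ} (hA : Am Q A) : Continuous A ∧ Continuous (deriv A) ∧
    ∀ y, HasDerivAt A (deriv A y) y := by
  refine ⟨hA.1.continuous, hA.1.continuous_deriv (le_refl _), fun y => ?_⟩
  exact ((hA.1.differentiable (by norm_num)) y).hasDerivAt

/-- the integrand -/
noncomputable def OSA_F (A B : ℝ → ℝ) (t t' j y : ℝ) : ℂ :=
  ((A (y + j) * B y : ℝ) : ℂ) * (E t (y + j) * (starRingEnd ℂ) (E t' y))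

theorem OSA_core (hIBP : IBP_stmt) (Q t t' c d j : ℝ) (A B : ℝ → ℝ) (hQ : 1 ≤ Q) (hA : Am Q A)
    (hB : Am Q B) (hj : 0 ≤ j) (hc : Q ≤ c) (hcd : c ≤ d)
    (hD : ∀ y ∈ Set.Icc c d, OSA_D t t' j y ≠ 0) :
    ‖∫ y in c..d, OSA_F A B t t' j y‖ ≤ |OSA_R t t' j c| + |OSA_R t t' j d| +
      ∫ y in c..d, (2 / Q * |OSA_R t t' j y| + |OSA_R' t t' j y|) := by
  have hQ0 : 0 < Q := by linarith
  obtain ⟨cA, cA', dA⟩ := OSA_c1 hA
  obtain ⟨cB, cB', dB⟩ := OSA_c1 hB
  have hpos : ∀ y ∈ Set.Icc c d, 0 < y := fun y hy => by linarith [hy.1]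
  have hN : ∀ y ∈ Set.Icc c d, OSA_N j y ≠ 0 := fun y hy => by
    have := hpos y hy
    unfold OSA_N
    positivity
  set b : ℝ → ℝ := fun y => A (y + j) * B y * OSA_R t t' j y with hb
  set b' : ℝ → ℝ := fun y => (deriv A (y + j) * B y + A (y + j) * deriv B y) * OSA_R t t' j y +
    A (y + j) * B y * OSA_R' t t' j y with hb'
  have cN : Continuous (OSA_N j) := by unfold OSA_N; fun_prop
  have cN' : Continuous (OSA_N' j) := by unfold OSA_N'; fun_prop
  have cD : Continuous (OSA_D t t' j) := by unfold OSA_D; fun_prop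
  have cD' : Continuous (OSA_D' t t' j) := by unfold OSA_D'; fun_prop
  have cR : ContinuousOn (OSA_R t t' j) (Set.Icc c d) := cN.continuousOn.div cD.continuousOn hD
  have cR' : ContinuousOn (OSA_R' t t' j) (Set.Icc c d) :=
    ((cN'.mul cD).sub (cN.mul cD')).continuousOn.div (cD.pow 2).continuousOn
      (fun y hy => pow_ne_zero 2 (hD y hy))
  have cAj : Continuous (fun y => A (y + j)) := cA.comp (continuous_id.add continuous_const)
  have cAj' : Continuous (fun y => deriv A (y + j)) := cA'.comp (continuous_id.add continuous_const)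
  have db : ∀ y ∈ Set.Icc c d, HasDerivAt b (b' y) y := by
    intro y hy
    have h1 : HasDerivAt (fun y => A (y + j)) (deriv A (y + j)) y := (dA (y + j)).comp_add_const y j
    exact (h1.mul (dB y)).mul (OSA_dR t t' j y (hD y hy))
  have cb' : ContinuousOn b' (Set.Icc c d) := by
    refine ContinuousOn.add (ContinuousOn.mul ?_ cR) (ContinuousOn.mul ?_ cR')
    · exact ((cAj'.mul cB).add (cAj.mul cB')).continuousOn
    · exact (cAj.mul cB).continuousOn
  have cth : ContinuousOn (fun y => OSA_D t t' j y / OSA_N j y) (Set.Icc c d) :=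
    cD.continuousOn.div cN.continuousOn hN
  have h := hIBP c d b b' (OSA_th t t' j) (fun y => OSA_D t t' j y / OSA_N j y) hcd db
    (fun y hy => OSA_dth t t' j y hj (hpos y hy)) cb' cth
  have e1 : ∫ y in c..d, ((b y * (OSA_D t t' j y / OSA_N j y) : ℝ) : ℂ) *
      Complex.exp (((OSA_th t t' j y : ℝ) : ℂ) * I) = ∫ y in c..d, OSA_F A B t t' j y := by
    refine intervalIntegral.integral_congr fun y hy => ?_
    rw [Set.uIcc_of_le hcd] at hy
    have h1 := hD y hy
    have h2 := hN y hy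
    have h3 : b y * (OSA_D t t' j y / OSA_N j y) = A (y + j) * B y := by
      rw [hb]
      unfold OSA_R
      field_simp
    simp only [OSA_F]
    rw [h3, OSA_ph]
  rw [e1] at h
  have bA : ∀ y, |A y| ≤ 1 := fun y => (hA.2.2 y).1
  have bB : ∀ y, |B y| ≤ 1 := fun y => (hB.2.2 y).1
  have bAB : ∀ y, |A (y + j) * B y| ≤ 1 := fun y => by
    rw [abs_mul]
    exact mul_le_one₀ (bA _) (abs_nonneg _) (bB _)
  have hbR : ∀ y, |b y| ≤ |OSA_R t t' j y| := fun y => by
    rw [hb, abs_mul]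
    exact mul_le_of_le_one_left (abs_nonneg _) (bAB y)
  have hb'R : ∀ y, |b' y| ≤ 2 / Q * |OSA_R t t' j y| + |OSA_R' t t' j y| := fun y => by
    have h1 : |deriv A (y + j) * B y + A (y + j) * deriv B y| ≤ 2 / Q := by
      have u1 : |deriv A (y + j) * B y| ≤ 1 / Q := by
        rw [abs_mul]
        calc |deriv A (y + j)| * |B y| ≤ 1 / Q * 1 :=
              mul_le_mul (hA.2.2 _).2 (bB y) (abs_nonneg _) (by positivity)
          _ = 1 / Q := mul_one _
      have u2 : |A (y + j) * deriv B y| ≤ 1 / Q := by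
        rw [abs_mul]
        calc |A (y + j)| * |deriv B y| ≤ 1 * (1 / Q) :=
              mul_le_mul (bA _) (hB.2.2 _).2 (abs_nonneg _) zero_le_one
          _ = 1 / Q := one_mul _
      calc _ ≤ |deriv A (y + j) * B y| + |A (y + j) * deriv B y| := abs_add_le _ _
        _ ≤ 1 / Q + 1 / Q := add_le_add u1 u2
        _ = 2 / Q := by ring
    rw [hb']
    calc _ ≤ |(deriv A (y + j) * B y + A (y + j) * deriv B y) * OSA_R t t' j y| +
          |A (y + j) * B y * OSA_R' t t' j y| := abs_add_le _ _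
      _ ≤ 2 / Q * |OSA_R t t' j y| + |OSA_R' t t' j y| := by
        rw [abs_mul, abs_mul (A (y + j) * B y)]
        exact add_le_add (mul_le_mul_of_nonneg_right h1 (abs_nonneg _))
          (mul_le_of_le_one_left (abs_nonneg _) (bAB y))
  have hmono : ∫ y in c..d, |b' y| ≤
      ∫ y in c..d, (2 / Q * |OSA_R t t' j y| + |OSA_R' t t' j y|) := by
    refine intervalIntegral.integral_mono_on hcd ?_ ?_ (fun y _ => hb'R y)
    · refine ContinuousOn.intervalIntegrable ?_
      rw [Set.uIcc_of_le hcd]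
      exact cb'.abs
    · refine ContinuousOn.intervalIntegrable ?_
      rw [Set.uIcc_of_le hcd]
      exact (continuousOn_const.mul cR.abs).add cR'.abs
  linarith [hbR c, hbR d]

/-- The integrand vanishes outside `[Q, 4Q - j]`. -/
theorem OSA_van (Q t t' j y : ℝ) (A B : ℝ → ℝ) (hA : Am Q A) (hB : Am Q B)
    (hy : y ∉ Set.Icc Q (4 * Q - j)) : OSA_F A B t t' j y = 0 := by
  unfold OSA_F
  have h : A (y + j) * B y = 0 := by
    by_cases h1 : y < Q
    · rw [hB.2.1 y (fun h => absurd h.1 (not_le.2 h1)), mul_zero]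
    · have h2 : 4 * Q - j < y := by
        by_contra h3
        exact hy ⟨not_lt.1 h1, not_lt.1 h3⟩
      rw [hA.2.1 (y + j) (fun h => absurd h.2 (by linarith)), zero_mul]
  rw [h]
  simp

theorem OSA_OI (Q t t' : ℝ) (j : ℤ) (A B : ℝ → ℝ) (hA : Am Q A) (hB : Am Q B)
    (h : Q ≤ 4 * Q - j) : OI A B t t' j = ∫ y in Q..(4 * Q - j), OSA_F A B t t' j y := by
  unfold OI
  rw [intervalIntegral.integral_of_le h, ← integral_Icc_eq_integral_Ioc]
  exact (setIntegral_eq_integral_of_forall_compl_eq_zero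
    (fun y hy => OSA_van Q t t' j y A B hA hB hy)).symm

theorem OSA_OI0 (Q t t' : ℝ) (j : ℤ) (A B : ℝ → ℝ) (hA : Am Q A) (hB : Am Q B)
    (h : 4 * Q - j < Q) : OI A B t t' j = 0 := by
  unfold OI
  have : ∀ y : ℝ, ((A (y + j) * B y : ℝ) : ℂ) * (E t (y + j) * (starRingEnd ℂ) (E t' y)) = 0 :=
    fun y => OSA_van Q t t' j y A B hA hB (fun hy => by linarith [hy.1, hy.2])
  simp only [this, integral_zero]

theorem OSA_Npos (Q j y : ℝ) (hQ : 1 ≤ Q) (hj : 0 ≤ j) (hy : Q ≤ y) : 0 < OSA_N j y := by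
  have : 0 < y := by linarith
  unfold OSA_N
  positivity

/-- `|N'| ≤ (4/Q) N` -/
theorem OSA_N'le (Q j y : ℝ) (hQ : 1 ≤ Q) (hj : 0 ≤ j) (hy : Q ≤ y) :
    |OSA_N' j y| ≤ 4 / Q * OSA_N j y := by
  have hQ0 : 0 < Q := by linarith
  have hy0 : 0 < y := by linarith
  have h0 : 0 ≤ OSA_N' j y := by unfold OSA_N'; positivity
  rw [abs_of_nonneg h0, div_mul_eq_mul_div, le_div_iff₀ hQ0]
  unfold OSA_N' OSA_N
  have h1 : (2 * y + 1) * Q ≤ 2 * (y * (y + 1)) := by nlinarith
  have h2 : (2 * (y + j) + 1) * Q ≤ 2 * ((y + j) * (y + j + 1)) := by nlinarith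
  have h3 : 0 ≤ y * (y + 1) := by positivity
  have h4 : 0 ≤ (y + j) * (y + j + 1) := by positivity
  nlinarith [mul_le_mul_of_nonneg_right h1 h4, mul_le_mul_of_nonneg_left h2 h3]

/-- the derivative of `N / D` -/
theorem OSA_R'le (Q t t' j y m : ℝ) (hQ : 1 ≤ Q) (hj : 0 ≤ j) (hy : Q ≤ y)
    (hD : OSA_D t t' j y ≠ 0) (hm : |OSA_D' t t' j y| ≤ m * |OSA_D t t' j y|) :
    |OSA_R' t t' j y| ≤ (4 / Q + m) * |OSA_R t t' j y| := by
  have hN := OSA_Npos Q j y hQ hj hy
  have hN' := OSA_N'le Q j y hQ hj hy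
  have hD0 : 0 < |OSA_D t t' j y| := abs_pos.2 hD
  unfold OSA_R' OSA_R
  rw [abs_div, abs_div, abs_of_pos hN, abs_pow, div_le_iff₀ (by positivity)]
  have e : (4 / Q + m) * (OSA_N j y / |OSA_D t t' j y|) * |OSA_D t t' j y| ^ 2 =
      4 / Q * OSA_N j y * |OSA_D t t' j y| + OSA_N j y * (m * |OSA_D t t' j y|) := by
    field_simp
  rw [e]
  calc |OSA_N' j y * OSA_D t t' j y - OSA_N j y * OSA_D' t t' j y|
      ≤ |OSA_N' j y * OSA_D t t' j y| + |OSA_N j y * OSA_D' t t' j y| := abs_sub _ _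
    _ ≤ _ := by
      rw [abs_mul, abs_mul, abs_of_pos hN]
      exact add_le_add (mul_le_mul_of_nonneg_right hN' (abs_nonneg _))
        (mul_le_mul_of_nonneg_left hm hN.le)

theorem OSA (hIBP : IBP_stmt) : OSA_stmt := by
  refine ⟨4096, by norm_num, ?_⟩
  intro Q T t t' j A B hQ hA hB hT ht1 ht2 hj htt
  have hQ0 : 0 < Q := by linarith
  have hj1 : (1 : ℝ) ≤ j := by exact_mod_cast hj
  have ht' : 0 < t' := by linarith
  have hTj : 0 < T * j := by positivity
  have hrhs : 0 ≤ 4096 * (Q ^ 3 / (T * j)) := by positivity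
  by_cases hq : 4 * Q - j < Q
  · rw [OSA_OI0 Q t t' j A B hA hB hq, norm_zero]
    exact hrhs
  have hq : Q ≤ 4 * Q - j := not_lt.1 hq
  rw [OSA_OI Q t t' j A B hA hB hq]
  set L : ℝ := t' * j with hL
  have hL0 : 0 < L := by positivity
  set K : ℝ := 128 * (Q ^ 3 / (T * j)) with hK
  have hK0 : 0 ≤ K := by positivity
  -- the denominator
  have hD1 : ∀ y ∈ Set.Icc Q (4 * Q - j), L * (y + j + 1) ≤ -OSA_D t t' j y := by
    intro y hy
    have hy0 : 0 < y := by linarith [hy.1]
    have e : -OSA_D t t' j y = L * (2 * y + j + 1) - (t - t') * (y * (y + 1)) := by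
      unfold OSA_D
      rw [hL]
      ring
    have h1 : (t - t') * (y * (y + 1)) ≤ L * y := by
      by_cases h : t' ≤ t
      · have h2 : (t - t') * (y + 1) ≤ L := by
          refine le_trans ?_ htt
          exact mul_le_mul_of_nonneg_left (by linarith [hy.2]) (by linarith)
        nlinarith
      · have h2 : (t - t') * (y * (y + 1)) ≤ 0 :=
          mul_nonpos_of_nonpos_of_nonneg (by linarith) (by positivity)
        have h3 : 0 ≤ L * y := by positivity
        linarith
    rw [e]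
    nlinarith
  have hD0 : ∀ y ∈ Set.Icc Q (4 * Q - j), 0 < -OSA_D t t' j y := fun y hy => by
    have hy0 : 0 < y := by linarith [hy.1]
    have h1 := hD1 y hy
    have h2 : 0 < L * (y + j + 1) := by positivity
    linarith
  have hDabs : ∀ y ∈ Set.Icc Q (4 * Q - j), |OSA_D t t' j y| = -OSA_D t t' j y := fun y hy =>
    abs_of_neg (by linarith [hD0 y hy])
  have hR : ∀ y ∈ Set.Icc Q (4 * Q - j), |OSA_R t t' j y| ≤ K := by
    intro y hy
    have hy0 : 0 < y := by linarith [hy.1]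
    unfold OSA_R
    rw [abs_div, abs_of_pos (OSA_Npos Q j y hQ (by linarith) hy.1), hDabs y hy,
      div_le_iff₀ (hD0 y hy)]
    have h1 := hD1 y hy
    have h2 : K * (L * (y + j + 1)) ≤ K * -OSA_D t t' j y := mul_le_mul_of_nonneg_left h1 hK0
    refine le_trans ?_ h2
    have h3 : OSA_N j y ≤ 64 * Q ^ 3 * (y + j + 1) := by
      unfold OSA_N
      have a1 : y ≤ 4 * Q := by linarith [hy.2]
      have a2 : y + 1 ≤ 4 * Q := by linarith [hy.2]
      have a3 : y + j ≤ 4 * Q := by linarith [hy.2]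
      have a4 : y * (y + 1) ≤ 4 * Q * (4 * Q) := mul_le_mul a1 a2 (by positivity) (by positivity)
      have a5 : y * (y + 1) * (y + j) ≤ 4 * Q * (4 * Q) * (4 * Q) :=
        mul_le_mul a4 a3 (by positivity) (by positivity)
      have a6 : 0 ≤ y + j + 1 := by positivity
      nlinarith [mul_le_mul_of_nonneg_right a5 a6]
    have h4 : 64 * Q ^ 3 ≤ K * L := by
      rw [hK, hL]
      have e : 128 * (Q ^ 3 / (T * j)) * (t' * j) = 128 * Q ^ 3 * (t' / T) := by field_simp
      rw [e]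
      have h5 : 1 / 2 ≤ t' / T := by rw [le_div_iff₀ hT]; linarith
      have h6 : 0 < 128 * Q ^ 3 := by positivity
      nlinarith
    calc OSA_N j y ≤ 64 * Q ^ 3 * (y + j + 1) := h3
      _ ≤ K * L * (y + j + 1) := mul_le_mul_of_nonneg_right h4 (by positivity)
      _ = K * (L * (y + j + 1)) := by ring
  have hD' : ∀ y ∈ Set.Icc Q (4 * Q - j), |OSA_D' t t' j y| ≤ 4 / Q * |OSA_D t t' j y| := by
    intro y hy
    have hy0 : 0 < y := by linarith [hy.1]
    rw [hDabs y hy, div_mul_eq_mul_div, le_div_iff₀ hQ0]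
    have e : OSA_D' t t' j y = (t - t') * (2 * y + 1) - 2 * L := by
      unfold OSA_D'
      rw [hL]
      ring
    by_cases h : t' ≤ t
    · have h2 : (t - t') * (2 * y + 1) ≤ 2 * L := by
        have h3 : (t - t') * (2 * y + 1) ≤ (t - t') * (2 * (4 * Q + 1)) :=
          mul_le_mul_of_nonneg_left (by linarith [hy.2]) (by linarith)
        linarith
      have h0 : 0 ≤ (t - t') * (2 * y + 1) := mul_nonneg (by linarith) (by linarith)
      have h4 : |OSA_D' t t' j y| ≤ 2 * L := by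
        rw [e, abs_le]
        constructor <;> linarith
      have h5 := hD1 y hy
      have h6 : 2 * L * Q ≤ 4 * (L * (y + j + 1)) := by nlinarith [hy.1]
      have h7 : |OSA_D' t t' j y| * Q ≤ 2 * L * Q := mul_le_mul_of_nonneg_right h4 hQ0.le
      linarith
    · have h0 : 0 ≤ (t' - t) * (2 * y + 1) := mul_nonneg (by linarith) (by linarith)
      have h1 : |OSA_D' t t' j y| = (t' - t) * (2 * y + 1) + 2 * L := by
        rw [e, abs_of_neg (by nlinarith)]
        ring
      have e2 : -OSA_D t t' j y = L * (2 * y + j + 1) + (t' - t) * (y * (y + 1)) := by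
        unfold OSA_D
        rw [hL]
        ring
      rw [h1, e2]
      have h2 : (2 * y + 1) * Q ≤ 4 * (y * (y + 1)) := by nlinarith [hy.1]
      have h3 : (t' - t) * ((2 * y + 1) * Q) ≤ (t' - t) * (4 * (y * (y + 1))) :=
        mul_le_mul_of_nonneg_left h2 (by linarith)
      have h4 : 2 * L * Q ≤ 4 * (L * (2 * y + j + 1)) := by nlinarith [hy.1]
      nlinarith
  have hcore := OSA_core hIBP Q t t' Q (4 * Q - j) j A B hQ hA hB (by linarith) le_rfl hq
    (fun y hy h => by have := hD0 y hy; rw [h] at this; linarith)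
  have hint : ∫ y in Q..(4 * Q - j), (2 / Q * |OSA_R t t' j y| + |OSA_R' t t' j y|) ≤
      10 / Q * K * |4 * Q - j - Q| := by
    refine (le_abs_self _).trans ?_
    rw [← Real.norm_eq_abs]
    refine intervalIntegral.norm_integral_le_of_norm_le_const fun y hy => ?_
    rw [Set.uIoc_of_le hq] at hy
    have hy' : y ∈ Set.Icc Q (4 * Q - j) := ⟨hy.1.le, hy.2⟩
    have h1 := hR y hy'
    have h2 := OSA_R'le Q t t' j y (4 / Q) hQ (by linarith) hy'.1
      (fun h => by have := hD0 y hy'; rw [h] at this; linarith) (hD' y hy')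
    have h3 : 0 ≤ |OSA_R t t' j y| := abs_nonneg _
    rw [Real.norm_eq_abs, abs_of_nonneg (by positivity)]
    have e : 10 / Q * K = 2 / Q * K + (4 / Q + 4 / Q) * K := by ring
    rw [e]
    have h4 : 0 ≤ 2 / Q := by positivity
    have h5 : 0 ≤ 4 / Q + 4 / Q := by positivity
    have h6 := mul_le_mul_of_nonneg_left h1 h4
    have h7 := mul_le_mul_of_nonneg_left h1 h5
    linarith
  have hlen : 10 / Q * K * |4 * Q - j - Q| ≤ 30 * K := by
    rw [abs_of_nonneg (by linarith)]
    have h1 : 4 * Q - j - Q ≤ 3 * Q := by linarith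
    have h2 : 0 ≤ 10 / Q * K := by positivity
    have h3 := mul_le_mul_of_nonneg_left h1 h2
    have e : 10 / Q * K * (3 * Q) = 30 * K := by field_simp; ring
    linarith
  have h1 := hR Q ⟨le_rfl, hq⟩
  have h2 := hR (4 * Q - j) ⟨hq, le_rfl⟩
  have e : 4096 * (Q ^ 3 / (T * j)) = 32 * K := by rw [hK]; ring
  rw [e]
  linarith

end Pool.Agent.BEY
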