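import Pool.Agent.helper59.BEY.OSA

set_option autoImplicit false

/-!
# Project BEY, row OSB (MP_4467b5_nt): a stationary point
-/

open Complex MeasureTheory

namespace Pool.Agent.BEY

theorem OSB_norm (Q t t' j y : ℝ) (A B : ℝ → ℝ) (hA : Am Q A) (hB : Am Q B) :
    ‖OSA_F A B t t' j y‖ ≤ 1 := by
  unfold OSA_F
  rw [OSA_ph, norm_mul, Complex.norm_exp_ofReal_mul_I, mul_one, Complex.norm_real,
    Real.norm_eq_abs, abs_mul]
  exact mul_le_one₀ (hA.2.2 _).1 (abs_nonneg _) (hB.2.2 _).1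

theorem OSB_cont (t t' j c d : ℝ) (hD : ∀ y ∈ Set.Icc c d, OSA_D t t' j y ≠ 0) :
    ContinuousOn (OSA_R t t' j) (Set.Icc c d) ∧ ContinuousOn (OSA_R' t t' j) (Set.Icc c d) := by
  have cN : Continuous (OSA_N j) := by unfold OSA_N; fun_prop
  have cN' : Continuous (OSA_N' j) := by unfold OSA_N'; fun_prop
  have cD : Continuous (OSA_D t t' j) := by unfold OSA_D; fun_prop
  have cD' : Continuous (OSA_D' t t' j) := by unfold OSA_D'; fun_prop
  exact ⟨cN.continuousOn.div cD.continuousOn hD,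
    ((cN'.mul cD).sub (cN.mul cD')).continuousOn.div (cD.pow 2).continuousOn
      (fun y hy => pow_ne_zero 2 (hD y hy))⟩

theorem OSB_Fcont (Q t t' j : ℝ) (A B : ℝ → ℝ) (hQ : 1 ≤ Q) (hA : Am Q A) (hB : Am Q B)
    (hj : 0 ≤ j) : ContinuousOn (fun y => OSA_F A B t t' j y) (Set.Ici Q) := by
  obtain ⟨cA, -, -⟩ := OSA_c1 hA
  obtain ⟨cB, -, -⟩ := OSA_c1 hB
  have cth : ContinuousOn (OSA_th t t' j) (Set.Ici Q) := fun y hy =>
    (OSA_dth t t' j y hj (by have : Q ≤ y := hy; linarith)).continuousAt.continuousWithinAt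
  have h1 : ContinuousOn (fun y => ((A (y + j) * B y : ℝ) : ℂ) *
      Complex.exp (((OSA_th t t' j y : ℝ) : ℂ) * I)) (Set.Ici Q) := by
    refine ContinuousOn.mul ?_ ?_
    · exact (Complex.continuous_ofReal.comp
        ((cA.comp (continuous_id.add continuous_const)).mul cB)).continuousOn
    · exact Complex.continuous_exp.comp_continuousOn
        ((Complex.continuous_ofReal.comp_continuousOn cth).mul continuousOn_const)
  refine h1.congr fun y _ => ?_
  simp only [OSA_F, OSA_ph]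

/-- The roots of `D`. -/
theorem OSB_root (t t' j : ℝ) (ht' : 0 < t') (htt : t' < t) (hj : 1 ≤ j) : ∃ y₁ y₂ : ℝ, y₂ < 0 ∧
    ∀ y, OSA_D t t' j y = (t - t') * ((y - y₁) * (y - y₂)) ∧
      OSA_D' t t' j y = (t - t') * ((y - y₁) + (y - y₂)) := by
  set a : ℝ := t - t' with ha
  set b : ℝ := a - 2 * t' * j with hb
  set c : ℝ := t' * j * (j + 1) with hc
  have ha0 : 0 < a := by linarith
  have hc0 : 0 < c := by positivity
  set s : ℝ := Real.sqrt (b ^ 2 + 4 * a * c) with hs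
  have hs2 : s ^ 2 = b ^ 2 + 4 * a * c := Real.sq_sqrt (by positivity)
  have hs0 : 0 ≤ s := Real.sqrt_nonneg _
  have hbs : -b < s := by
    have h1 : (-b) ^ 2 < s ^ 2 := by
      rw [hs2]
      have : 0 < 4 * a * c := by positivity
      nlinarith
    exact lt_of_pow_lt_pow_left₀ 2 hs0 h1
  refine ⟨(-b + s) / (2 * a), (-b - s) / (2 * a), ?_, fun y => ⟨?_, ?_⟩⟩
  · exact div_neg_of_neg_of_pos (by linarith) (by linarith)
  · have e : a * ((y - (-b + s) / (2 * a)) * (y - (-b - s) / (2 * a))) =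
        a * y ^ 2 + b * y + (b ^ 2 - s ^ 2) / (4 * a) := by
      field_simp
      ring
    rw [e, hs2]
    have e2 : (b ^ 2 - (b ^ 2 + 4 * a * c)) / (4 * a) = -c := by
      field_simp
      ring
    rw [e2]
    unfold OSA_D
    rw [hc, hb, ha]
    ring
  · have e : a * ((y - (-b + s) / (2 * a)) + (y - (-b - s) / (2 * a))) = 2 * a * y + b := by
      field_simp
      ring
    rw [e]
    unfold OSA_D'
    rw [hb, ha]
    ring

/-- One part, away from the stationary point. -/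
theorem OSB_part (hIBP : IBP_stmt) (Q t t' j y₁ y₂ τ c d : ℝ) (A B : ℝ → ℝ) (hQ : 1 ≤ Q)
    (hA : Am Q A) (hB : Am Q B) (hj : 1 ≤ j) (htt : t' < t) (hτ : 0 < τ)
    (hτ2 : τ ^ 2 = Q ^ 3 / (t - t')) (h2 : y₂ < 0)
    (hr : ∀ y, OSA_D t t' j y = (t - t') * ((y - y₁) * (y - y₂)) ∧
      OSA_D' t t' j y = (t - t') * ((y - y₁) + (y - y₂)))
    (hc : Q ≤ c) (hcd : c ≤ d) (hd : d ≤ 4 * Q - j) (hside : y₁ + τ ≤ c ∨ d ≤ y₁ - τ) :
    ‖∫ y in c..d, OSA_F A B t t' j y‖ ≤ 1920 * τ := by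
  have hQ0 : 0 < Q := by linarith
  have hΔ : 0 < t - t' := by linarith
  have hdist : ∀ y ∈ Set.Icc c d, τ ≤ |y - y₁| := by
    intro y hy
    rcases hside with h | h
    · rw [abs_of_nonneg (by linarith [hy.1])]
      linarith [hy.1]
    · rw [abs_of_nonpos (by linarith [hy.2])]
      linarith [hy.2]
  have hD : ∀ y ∈ Set.Icc c d, OSA_D t t' j y ≠ 0 := by
    intro y hy
    rw [(hr y).1]
    have h3 : y - y₁ ≠ 0 := by
      intro h
      have := hdist y hy
      rw [h, abs_zero] at this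
      linarith
    have h4 : y - y₂ ≠ 0 := by
      have : 0 < y - y₂ := by linarith [hy.1]
      exact this.ne'
    exact mul_ne_zero hΔ.ne' (mul_ne_zero h3 h4)
  have hR : ∀ y ∈ Set.Icc c d, |OSA_R t t' j y| ≤ 80 * τ ^ 2 / |y - y₁| := by
    intro y hy
    have hyQ : Q ≤ y := hc.trans hy.1
    have hy0 : 0 < y := by linarith
    have hab : 0 < |y - y₁| := lt_of_lt_of_le hτ (hdist y hy)
    have hN := OSA_Npos Q j y hQ (by linarith) hyQ
    unfold OSA_R
    rw [abs_div, abs_of_pos hN, div_le_div_iff₀ (abs_pos.2 (hD y hy)) hab, (hr y).1, abs_mul,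
      abs_mul, abs_of_pos hΔ, abs_of_pos (show 0 < y - y₂ by linarith), hτ2]
    have e : 80 * (Q ^ 3 / (t - t')) * ((t - t') * (|y - y₁| * (y - y₂))) =
        80 * Q ^ 3 * (y - y₂) * |y - y₁| := by
      field_simp
    rw [e]
    refine mul_le_mul_of_nonneg_right ?_ hab.le
    have a2 : y + 1 ≤ 4 * Q := by linarith [hy.2]
    have a3 : y + j ≤ 4 * Q := by linarith [hy.2]
    have a4 : y + j + 1 ≤ 5 * Q := by linarith [hy.2]
    have b1 : (y + 1) * (y + j) ≤ 4 * Q * (4 * Q) := mul_le_mul a2 a3 (by positivity) (by positivity)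
    have b2 : (y + 1) * (y + j) * (y + j + 1) ≤ 4 * Q * (4 * Q) * (5 * Q) :=
      mul_le_mul b1 a4 (by positivity) (by positivity)
    have e3 : OSA_N j y = (y + 1) * (y + j) * (y + j + 1) * y := by unfold OSA_N; ring
    rw [e3]
    calc (y + 1) * (y + j) * (y + j + 1) * y ≤ 4 * Q * (4 * Q) * (5 * Q) * y :=
          mul_le_mul_of_nonneg_right b2 hy0.le
      _ = 80 * Q ^ 3 * y := by ring
      _ ≤ 80 * Q ^ 3 * (y - y₂) := mul_le_mul_of_nonneg_left (by linarith) (by positivity)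
  have hR1 : ∀ y ∈ Set.Icc c d, |OSA_R t t' j y| ≤ 80 * τ := by
    intro y hy
    refine (hR y hy).trans ?_
    rw [div_le_iff₀ (lt_of_lt_of_le hτ (hdist y hy))]
    nlinarith [hdist y hy]
  have hR' : ∀ y ∈ Set.Icc c d, |OSA_R' t t' j y| ≤ (5 / Q + 1 / |y - y₁|) * |OSA_R t t' j y| := by
    intro y hy
    have hyQ : Q ≤ y := hc.trans hy.1
    have hab : 0 < |y - y₁| := lt_of_lt_of_le hτ (hdist y hy)
    have hy2 : 0 < y - y₂ := by linarith
    have h := OSA_R'le Q t t' j y (1 / Q + 1 / |y - y₁|) hQ (by linarith) hyQ (hD y hy) (by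
      rw [(hr y).1, (hr y).2, abs_mul, abs_mul, abs_mul, abs_of_pos hΔ, abs_of_pos hy2]
      have e : (1 / Q + 1 / |y - y₁|) * ((t - t') * (|y - y₁| * (y - y₂))) =
          (t - t') * (|y - y₁| * ((y - y₂) / Q) + (y - y₂)) := by
        field_simp
      rw [e]
      refine mul_le_mul_of_nonneg_left ?_ hΔ.le
      have h5 : 1 ≤ (y - y₂) / Q := by rw [le_div_iff₀ hQ0]; linarith
      calc |y - y₁ + (y - y₂)| ≤ |y - y₁| + |y - y₂| := abs_add_le _ _
        _ = |y - y₁| * 1 + (y - y₂) := by rw [abs_of_pos hy2, mul_one]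
        _ ≤ |y - y₁| * ((y - y₂) / Q) + (y - y₂) := by
          have := mul_le_mul_of_nonneg_left h5 hab.le
          linarith)
    refine h.trans (le_of_eq ?_)
    ring
  have hcore := OSA_core hIBP Q t t' c d j A B hQ hA hB (by linarith) hc hcd hD
  obtain ⟨cR, cR'⟩ := OSB_cont t t' j c d hD
  set g' : ℝ → ℝ := fun y => 560 * τ / Q + 80 * τ ^ 2 / (y - y₁) ^ 2 with hg'
  set g : ℝ → ℝ := fun y => 560 * τ / Q * y - 80 * τ ^ 2 / (y - y₁) with hg
  have hne : ∀ y ∈ Set.Icc c d, y - y₁ ≠ 0 := by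
    intro y hy h
    have := hdist y hy
    rw [h, abs_zero] at this
    linarith
  have hbound : ∀ y ∈ Set.Icc c d, 2 / Q * |OSA_R t t' j y| + |OSA_R' t t' j y| ≤ g' y := by
    intro y hy
    have hab : 0 < |y - y₁| := lt_of_lt_of_le hτ (hdist y hy)
    have h1 := hR' y hy
    have h3 := hR y hy
    have h4 : 2 / Q * |OSA_R t t' j y| + |OSA_R' t t' j y| ≤
        (7 / Q + 1 / |y - y₁|) * |OSA_R t t' j y| := by
      have e : (7 / Q + 1 / |y - y₁|) * |OSA_R t t' j y| =
        2 / Q * |OSA_R t t' j y| + (5 / Q + 1 / |y - y₁|) * |OSA_R t t' j y| := by ring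
      linarith
    have h5 : (7 / Q + 1 / |y - y₁|) * |OSA_R t t' j y| =
        7 / Q * |OSA_R t t' j y| + 1 / |y - y₁| * |OSA_R t t' j y| := by ring
    have h6 : 7 / Q * |OSA_R t t' j y| ≤ 7 / Q * (80 * τ) :=
      mul_le_mul_of_nonneg_left (hR1 y hy) (by positivity)
    have h7 : 1 / |y - y₁| * |OSA_R t t' j y| ≤ 1 / |y - y₁| * (80 * τ ^ 2 / |y - y₁|) :=
      mul_le_mul_of_nonneg_left h3 (by positivity)
    have h8 : 1 / |y - y₁| * (80 * τ ^ 2 / |y - y₁|) = 80 * τ ^ 2 / (y - y₁) ^ 2 := by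
      rw [← sq_abs (y - y₁)]
      field_simp
    have h9 : 7 / Q * (80 * τ) = 560 * τ / Q := by ring
    have h10 : g' y = 560 * τ / Q + 80 * τ ^ 2 / (y - y₁) ^ 2 := rfl
    linarith
  have hgd : ∀ y ∈ Set.uIcc c d, HasDerivAt g (g' y) y := by
    intro y hy
    rw [Set.uIcc_of_le hcd] at hy
    have h1 : HasDerivAt (fun y : ℝ => 80 * τ ^ 2 / (y - y₁)) (-(80 * τ ^ 2) / (y - y₁) ^ 2) y := by
      have h := (hasDerivAt_const y (80 * τ ^ 2)).div ((hasDerivAt_id y).sub_const y₁) (hne y hy)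
      refine h.congr_deriv ?_
      simp only [id]
      ring
    have h3 := ((hasDerivAt_id y).const_mul (560 * τ / Q)).sub h1
    refine h3.congr_deriv ?_
    simp only [hg']
    ring
  have hg'c : ContinuousOn g' (Set.Icc c d) := by
    refine continuousOn_const.add (continuousOn_const.div ?_ ?_)
    · exact ((continuous_id.sub continuous_const).pow 2).continuousOn
    · intro y hy
      exact pow_ne_zero 2 (hne y hy)
  have hi2 : IntervalIntegrable g' volume c d := by
    refine ContinuousOn.intervalIntegrable ?_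
    rw [Set.uIcc_of_le hcd]
    exact hg'c
  have hi1 : IntervalIntegrable (fun y => 2 / Q * |OSA_R t t' j y| + |OSA_R' t t' j y|)
      volume c d := by
    refine ContinuousOn.intervalIntegrable ?_
    rw [Set.uIcc_of_le hcd]
    exact (continuousOn_const.mul cR.abs).add cR'.abs
  have hint := intervalIntegral.integral_mono_on hcd hi1 hi2 hbound
  rw [intervalIntegral.integral_eq_sub_of_hasDerivAt hgd hi2] at hint
  have hfin : g d - g c ≤ 1760 * τ := by
    have h1 : 560 * τ / Q * (d - c) ≤ 1680 * τ := by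
      have h3 : d - c ≤ 3 * Q := by linarith
      have h4 : 0 ≤ 560 * τ / Q := by positivity
      have h5 := mul_le_mul_of_nonneg_left h3 h4
      have e : 560 * τ / Q * (3 * Q) = 1680 * τ := by field_simp; ring
      linarith
    have h3 : 80 * τ ^ 2 / (c - y₁) - 80 * τ ^ 2 / (d - y₁) ≤ 80 * τ := by
      rcases hside with h | h
      · have u1 : 80 * τ ^ 2 / (c - y₁) ≤ 80 * τ := by
          rw [div_le_iff₀ (by linarith)]
          nlinarith
        have u2 : 0 ≤ 80 * τ ^ 2 / (d - y₁) := div_nonneg (by positivity) (by linarith)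
        linarith
      · have u1 : 80 * τ ^ 2 / (c - y₁) ≤ 0 :=
          div_nonpos_of_nonneg_of_nonpos (by positivity) (by linarith)
        have u2 : -(80 * τ ^ 2 / (d - y₁)) ≤ 80 * τ := by
          rw [← div_neg, div_le_iff₀ (by linarith)]
          nlinarith
        linarith
    have e : g d - g c = 560 * τ / Q * (d - c) +
        (80 * τ ^ 2 / (c - y₁) - 80 * τ ^ 2 / (d - y₁)) := by
      simp only [hg]
      ring
    linarith
  have h3 := hR1 c ⟨le_rfl, hcd⟩
  have h4 := hR1 d ⟨hcd, le_rfl⟩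
  linarith

theorem OSB (hIBP : IBP_stmt) : OSB_stmt := by
  refine ⟨3842, by norm_num, ?_⟩
  intro Q t t' j A B hQ hA hB ht' htt hj
  rw [← Real.sqrt_eq_rpow]
  set τ : ℝ := Real.sqrt (Q ^ 3 / (t - t')) with hτ
  have hQ0 : 0 < Q := by linarith
  have hj1 : (1 : ℝ) ≤ j := by exact_mod_cast hj
  have hΔ : 0 < t - t' := by linarith
  have hτ0 : 0 < τ := Real.sqrt_pos.2 (by positivity)
  have hτ2 : τ ^ 2 = Q ^ 3 / (t - t') := Real.sq_sqrt (by positivity)
  by_cases hq : 4 * Q - j < Q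
  · rw [OSA_OI0 Q t t' j A B hA hB hq, norm_zero]
    positivity
  have hq : Q ≤ 4 * Q - j := not_lt.1 hq
  rw [OSA_OI Q t t' j A B hA hB hq]
  by_cases hτQ : Q ≤ τ
  · have h1 : ‖∫ y in Q..(4 * Q - j), OSA_F A B t t' j y‖ ≤ 1 * |4 * Q - j - Q| :=
      intervalIntegral.norm_integral_le_of_norm_le_const
        (fun y _ => OSB_norm Q t t' j y A B hA hB)
    rw [one_mul, abs_of_nonneg (by linarith)] at h1
    linarith
  obtain ⟨y₁, y₂, h2, hr⟩ := OSB_root t t' j ht' htt hj1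
  have hFc := OSB_Fcont Q t t' j A B hQ hA hB (by linarith)
  set p : ℝ := Q with hp
  set q : ℝ := 4 * p - j with hqd
  set c₁ : ℝ := max p (min q (y₁ - τ)) with hc₁
  set c₂ : ℝ := max p (min q (y₁ + τ)) with hc₂
  have hpc : p ≤ c₁ := le_max_left _ _
  have hcc : c₁ ≤ c₂ := max_le_max le_rfl (min_le_min le_rfl (by linarith))
  have hcq : c₂ ≤ q := max_le hq (min_le_left _ _)
  have hlen : c₂ - c₁ ≤ 2 * τ := by
    have h3 : min q (y₁ + τ) ≤ min q (y₁ - τ) + 2 * τ := by
      rw [← min_add_add_right]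
      exact min_le_min (by linarith) (by linarith)
    have h4 : c₂ ≤ c₁ + 2 * τ := by
      refine max_le ?_ ?_
      · linarith
      · exact h3.trans (by have := le_max_right p (min q (y₁ - τ)); linarith)
    linarith
  have hii : ∀ a b : ℝ, p ≤ a → a ≤ b → IntervalIntegrable (fun y => OSA_F A B t t' j y) volume a b := by
    intro a b ha hab
    refine ContinuousOn.intervalIntegrable ?_
    rw [Set.uIcc_of_le hab]
    exact hFc.mono (fun y hy => ha.trans hy.1)
  have hsum : ∫ y in p..q, OSA_F A B t t' j y = (∫ y in p..c₁, OSA_F A B t t' j y) +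
      (∫ y in c₁..c₂, OSA_F A B t t' j y) + ∫ y in c₂..q, OSA_F A B t t' j y := by
    rw [intervalIntegral.integral_add_adjacent_intervals (hii p c₁ le_rfl hpc) (hii c₁ c₂ hpc hcc),
      intervalIntegral.integral_add_adjacent_intervals (hii p c₂ le_rfl (hpc.trans hcc))
        (hii c₂ q (hpc.trans hcc) hcq)]
  rw [hsum]
  have u1 : ‖∫ y in p..c₁, OSA_F A B t t' j y‖ ≤ 1920 * τ := by
    by_cases h : p = c₁
    · rw [← h, intervalIntegral.integral_same, norm_zero]
      positivity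
    · have h3 : p < c₁ := lt_of_le_of_ne hpc h
      have h4 : c₁ ≤ y₁ - τ := by
        rw [hc₁]
        rcases le_total (min q (y₁ - τ)) p with h5 | h5
        · rw [hc₁, max_eq_left h5] at h3
          exact absurd h3 (lt_irrefl _)
        · rw [max_eq_right h5]
          exact min_le_right _ _
      exact OSB_part hIBP Q t t' j y₁ y₂ τ p c₁ A B hQ hA hB hj1 htt hτ0 hτ2 h2 hr le_rfl hpc
        (hcc.trans hcq) (Or.inr h4)
  have u3 : ‖∫ y in c₂..q, OSA_F A B t t' j y‖ ≤ 1920 * τ := by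
    by_cases h : c₂ = q
    · rw [h, intervalIntegral.integral_same, norm_zero]
      positivity
    · have h3 : c₂ < q := lt_of_le_of_ne hcq h
      have h4 : y₁ + τ ≤ c₂ := by
        have h5 : min q (y₁ + τ) ≤ c₂ := le_max_right _ _
        rcases le_total q (y₁ + τ) with h6 | h6
        · rw [min_eq_left h6] at h5
          linarith
        · rw [min_eq_right h6] at h5
          exact h5
      exact OSB_part hIBP Q t t' j y₁ y₂ τ c₂ q A B hQ hA hB hj1 htt hτ0 hτ2 h2 hr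
        (hpc.trans hcc) hcq le_rfl (Or.inl h4)
  have u2 : ‖∫ y in c₁..c₂, OSA_F A B t t' j y‖ ≤ 2 * τ := by
    have h1 : ‖∫ y in c₁..c₂, OSA_F A B t t' j y‖ ≤ 1 * |c₂ - c₁| :=
      intervalIntegral.norm_integral_le_of_norm_le_const
        (fun y _ => OSB_norm Q t t' j y A B hA hB)
    rw [one_mul, abs_of_nonneg (by linarith)] at h1
    linarith
  calc ‖(∫ y in p..c₁, OSA_F A B t t' j y) + (∫ y in c₁..c₂, OSA_F A B t t' j y) +
        ∫ y in c₂..q, OSA_F A B t t' j y‖
      ≤ ‖(∫ y in p..c₁, OSA_F A B t t' j y) + (∫ y in c₁..c₂, OSA_F A B t t' j y)‖ +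
        ‖∫ y in c₂..q, OSA_F A B t t' j y‖ := norm_add_le _ _
    _ ≤ ‖∫ y in p..c₁, OSA_F A B t t' j y‖ + ‖∫ y in c₁..c₂, OSA_F A B t t' j y‖ +
        ‖∫ y in c₂..q, OSA_F A B t t' j y‖ := by
      have := norm_add_le (∫ y in p..c₁, OSA_F A B t t' j y) (∫ y in c₁..c₂, OSA_F A B t t' j y)
      linarith
    _ ≤ 3842 * τ := by linarith

end Pool.Agent.BEY
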